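import Mathlib

set_option autoImplicit false

/-!
# Polynomial systems whose top degree forms have no common zero
-/

namespace Pool.Agent.UBC

open MvPolynomial

section nullst
variable {k K : Type*} [Field k] [Field K] [Algebra k K] [IsAlgClosed K] {n : ℕ}

/-- If the only common zero is the origin, powers of the variables are in the ideal. -/
theorem exists_pow_mem {ι : Type*} (f : ι → MvPolynomial (Fin n) k)
    (hf : ∀ x : Fin n → K, (∀ i, aeval x (f i) = 0) → x = 0) :
    ∃ r : ℕ, ∀ i, (X i : MvPolynomial (Fin n) k) ^ r ∈ Ideal.span (Set.range f) := by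
  classical
  have h1 : ∀ i, ∃ r : ℕ, (X i : MvPolynomial (Fin n) k) ^ r ∈ Ideal.span (Set.range f) := by
    intro i
    have h2 : (X i : MvPolynomial (Fin n) k) ∈ (Ideal.span (Set.range f)).radical := by
      rw [← vanishingIdeal_zeroLocus_eq_radical (K := K), mem_vanishingIdeal_iff]
      intro x hx
      have : x = 0 := hf x (fun j => hx _ (Ideal.subset_span ⟨j, rfl⟩))
      rw [this]
      simp
    exact h2
  choose r hr using h1
  refine ⟨∑ i, r i, fun i => ?_⟩
  have : r i ≤ ∑ i, r i := Finset.single_le_sum (fun _ _ => Nat.zero_le _) (Finset.mem_univ i)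
  obtain ⟨c, hc⟩ : ∃ c, ∑ i, r i = r i + c := ⟨_, (Nat.add_sub_cancel' this).symm⟩
  rw [hc, pow_add]
  exact Ideal.mul_mem_right _ _ (hr i)

/-- Conversely there are no nontrivial zeros in any extension field. -/
theorem eq_zero_of_pow_mem {ι : Type*} {f : ι → MvPolynomial (Fin n) k} {r : ℕ}
    (hr : ∀ i, (X i : MvPolynomial (Fin n) k) ^ r ∈ Ideal.span (Set.range f)) {F : Type*} [Field F]
    (τ : k →+* F) (x : Fin n → F) (hx : ∀ i, eval₂ τ x (f i) = 0) : x = 0 := by
  funext i
  have h1 : Ideal.span (Set.range f) ≤ RingHom.ker (eval₂Hom τ x) := by
    rw [Ideal.span_le]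
    rintro _ ⟨j, rfl⟩
    exact hx j
  have h2 := h1 (hr i)
  rw [RingHom.mem_ker, map_pow] at h2
  have h3 : x i ^ r = 0 := by simpa using h2
  have h4 : r ≠ 0 := by
    rintro rfl
    rw [pow_zero] at h3
    exact one_ne_zero h3
  exact (pow_eq_zero_iff h4).mp h3

end nullst

section hom
variable {k : Type*} [CommRing k] {σ : Type*}

theorem homogeneousComponent_mul_of_homog {f : MvPolynomial σ k} {e : ℕ} (hf : f.IsHomogeneous e)
    (c : MvPolynomial σ k) (m : ℕ) :
    homogeneousComponent (m + e) (c * f) = homogeneousComponent m c * f := by
  classical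
  conv_lhs => rw [← sum_homogeneousComponent c, Finset.sum_mul, map_sum]
  have h1 : ∀ i ∈ Finset.range (c.totalDegree + 1),
      homogeneousComponent (m + e) (homogeneousComponent i c * f) =
        if i = m then homogeneousComponent i c * f else 0 := by
    intro i _
    have : homogeneousComponent i c * f ∈ homogeneousSubmodule σ k (i + e) :=
      (homogeneousComponent_isHomogeneous i c).mul hf
    rw [homogeneousComponent_of_mem this]
    by_cases h : i = m
    · rw [if_pos (by rw [h]), if_pos h]
    · rw [if_neg (by omega), if_neg h]
  rw [Finset.sum_congr rfl h1, Finset.sum_ite_eq']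
  by_cases hm : m ∈ Finset.range (c.totalDegree + 1)
  · rw [if_pos hm]
  · rw [if_neg hm, homogeneousComponent_eq_zero, zero_mul]
    simpa using hm

end hom

section fin
variable {k : Type*} [Field k] [IsAlgClosed k] {n : ℕ}

theorem finite_sol {e : ℕ} (f g : Fin n → MvPolynomial (Fin n) k)
    (hf : ∀ i, (f i).IsHomogeneous e) (hf0 : ∀ x : Fin n → k, (∀ i, eval x (f i) = 0) → x = 0)
    (hg : ∀ i, (g i).totalDegree < e) :
    {x : Fin n → k | ∀ i, eval x (f i) = eval x (g i)}.Finite := by
  classical
  set Sol := {x : Fin n → k | ∀ i, eval x (f i) = eval x (g i)} with hSol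
  obtain ⟨r0, hr0⟩ := exists_pow_mem (K := k) f (fun x hx => hf0 x (fun i => by
    have := hx i
    rwa [aeval_eq_eval] at this))
  set r := r0 + e with hr
  have hr1 : ∀ i, (X i : MvPolynomial (Fin n) k) ^ r ∈ Ideal.span (Set.range f) := by
    intro i
    rw [hr, pow_add]
    exact Ideal.mul_mem_right _ _ (hr0 i)
  have hcomb : ∀ i, ∃ h : Fin n → MvPolynomial (Fin n) k, (∀ j, (h j).IsHomogeneous r0) ∧
      (X i : MvPolynomial (Fin n) k) ^ r = ∑ j, h j * f j := by
    intro i
    obtain ⟨c, hc⟩ := (Ideal.mem_span_range_iff_exists_fun).mp (hr1 i)
    refine ⟨fun j => homogeneousComponent r0 (c j),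
      fun j => homogeneousComponent_isHomogeneous _ _, ?_⟩
    have h1 := congrArg (homogeneousComponent r) hc
    rw [map_sum] at h1
    have h2 : homogeneousComponent r ((X i : MvPolynomial (Fin n) k) ^ r) = X i ^ r :=
      homogeneousComponent_eq_self (isHomogeneous_X_pow i r)
    rw [h2] at h1
    rw [← h1]
    apply Finset.sum_congr rfl
    intro j _
    exact homogeneousComponent_mul_of_homog (hf j) (c j) r0
  choose h hh hX using hcomb
  -- the space of polynomials of small partial degrees
  set T : Finset (Fin n →₀ ℕ) := Finset.Iic (Finsupp.equivFunOnFinite.symm (fun _ => r)) with hT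
  set V : Submodule k (MvPolynomial (Fin n) k) :=
    Submodule.span k (↑(T.image (fun α => monomial α (1 : k)))) with hV
  have hVfin : FiniteDimensional k V := FiniteDimensional.span_finset k _
  let J : Submodule k (MvPolynomial (Fin n) k) :=
    { carrier := {p | ∀ x ∈ Sol, eval x p = 0}
      add_mem' := by
        intro a b ha hb x hx
        rw [map_add, ha x hx, hb x hx, add_zero]
      zero_mem' := by intro x _; simp
      smul_mem' := by
        intro c a ha x hx
        rw [smul_eval, ha x hx, mul_zero] }
  have hmono : ∀ D : ℕ, ∀ α : Fin n →₀ ℕ, α.degree = D → ∀ a : k, monomial α a ∈ V ⊔ J := by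
    intro D
    induction D using Nat.strong_induction_on with
    | _ D ih =>
      -- all polynomials of degree less than `D`
      have hlow : ∀ p : MvPolynomial (Fin n) k, p.totalDegree < D → p ∈ V ⊔ J := by
        intro p hp
        rw [p.as_sum]
        apply Submodule.sum_mem
        intro β hβ
        have h1 : β.degree ≤ p.totalDegree := le_totalDegree hβ
        exact ih β.degree (lt_of_le_of_lt h1 hp) β rfl _
      intro α hα a
      by_cases hαT : α ∈ T
      · apply Submodule.mem_sup_left
        have : monomial α a = a • monomial α (1 : k) := by rw [smul_monomial, smul_eq_mul, mul_one]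
        rw [this]
        apply Submodule.smul_mem
        apply Submodule.subset_span
        simp only [Finset.coe_image, Set.mem_image, Finset.mem_coe]
        exact ⟨α, hαT, rfl⟩
      · have : ∃ i, r < α i := by
          by_contra hcon
          push Not at hcon
          apply hαT
          rw [hT, Finset.mem_Iic]
          intro i
          exact hcon i
        obtain ⟨i, hi⟩ := this
        -- α = single i r + β
        set β := α - Finsupp.single i r with hβ
        have hαβ : α = Finsupp.single i r + β := by
          rw [hβ, add_tsub_cancel_of_le]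
          rw [Finsupp.single_le_iff]; exact hi.le
        have hdeg : α.degree = r + β.degree := by
          conv_lhs => rw [hαβ]
          rw [map_add]
          simp
        have e1 : monomial α a = (∑ j, h i j * (f j - g j) * monomial β a) +
            ∑ j, h i j * g j * monomial β a := by
          rw [← Finset.sum_add_distrib]
          have : monomial α a = X i ^ r * monomial β a := by
            rw [X_pow_eq_monomial, monomial_mul, one_mul, ← hαβ]
          rw [this, hX i, Finset.sum_mul]
          apply Finset.sum_congr rfl
          intro j _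
          ring
        rw [e1]
        apply Submodule.add_mem
        · apply Submodule.mem_sup_right
          intro x hx
          rw [map_sum]
          apply Finset.sum_eq_zero
          intro j _
          rw [map_mul, map_mul, map_sub, hx j, sub_self, mul_zero, zero_mul]
        · apply Submodule.sum_mem
          intro j _
          apply hlow
          have t1 : (h i j * g j).totalDegree ≤ r0 + (g j).totalDegree :=
            (totalDegree_mul _ _).trans (Nat.add_le_add_right ((hh i j).totalDegree_le) _)
          have t2 : (monomial β a).totalDegree ≤ β.degree := totalDegree_monomial_le β a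
          have t3 := totalDegree_mul (h i j * g j) (monomial β a)
          have t4 := hg j
          omega
  have htop : V ⊔ J = ⊤ := by
    rw [eq_top_iff]
    intro p _
    rw [p.as_sum]
    apply Submodule.sum_mem
    intro β _
    exact hmono _ β rfl _
  by_contra hinf
  obtain ⟨S, hSsub, hScard⟩ := Set.Infinite.exists_subset_card_eq hinf (Module.finrank k V + 1)
  -- evaluation functionals on V
  let φ : S → Module.Dual k V := fun x =>
    ((aeval (x : Fin n → k)).toLinearMap : MvPolynomial (Fin n) k →ₗ[k] k).comp V.subtype
  have hli : LinearIndependent k φ := by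
    rw [Fintype.linearIndependent_iff]
    intro c hc
    -- the functional vanishes everywhere
    have hall : ∀ p : MvPolynomial (Fin n) k, ∑ x : S, c x * eval (x : Fin n → k) p = 0 := by
      intro p
      have hp : p ∈ V ⊔ J := by rw [htop]; trivial
      obtain ⟨v, hv, w, hw, rfl⟩ := Submodule.mem_sup.mp hp
      have h1 := congrArg (fun ψ : Module.Dual k V => ψ ⟨v, hv⟩) hc
      simp only [LinearMap.sum_apply, LinearMap.smul_apply, LinearMap.zero_apply, smul_eq_mul] at h1
      have h2 : ∀ x : S, c x * eval (x : Fin n → k) (v + w) = c x * φ x ⟨v, hv⟩ := by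
        intro x
        have hx : (x : Fin n → k) ∈ Sol := hSsub x.2
        have : eval (x : Fin n → k) w = 0 := hw _ hx
        rw [map_add, this, add_zero]
        simp only [φ, LinearMap.comp_apply, Submodule.subtype_apply, AlgHom.toLinearMap_apply]
        rw [aeval_eq_eval]
      rw [Finset.sum_congr rfl (fun x _ => h2 x)]
      exact h1
    have hded := linearIndependent_monoidHom (MvPolynomial (Fin n) k) k
    have hinj : Function.Injective (fun x : S =>
        ((eval (x : Fin n → k)).toMonoidHom : MvPolynomial (Fin n) k →* k)) := by
      intro x y hxy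
      apply Subtype.ext
      funext i
      have := congrArg (fun ψ : MvPolynomial (Fin n) k →* k => ψ (X i)) hxy
      simpa using this
    have hli2 := hded.comp _ hinj
    rw [Fintype.linearIndependent_iff] at hli2
    apply hli2 c
    funext p
    have := hall p
    simpa using this
  have h1 := hli.fintype_card_le_finrank
  rw [Subspace.dual_finrank_eq, Fintype.card_coe, hScard] at h1
  omega

end fin

end Pool.Agent.UBC
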