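import Mathlib
import Pool.Agent.UBC.Homog

set_option autoImplicit false

/-!
# Gradient maps of convex forms
-/

namespace Pool.Agent.UBC

open MvPolynomial

variable {n : ℕ}

/-- derivative of a polynomial along a line -/
theorem hasDerivAt_line (p : MvPolynomial (Fin n) ℝ) (x w : Fin n → ℝ) (t : ℝ) :
    HasDerivAt (fun t : ℝ => eval (fun i => x i + t * w i) p)
      (∑ j, w j * eval (fun i => x i + t * w i) (pderiv j p)) t := by
  classical
  induction p using MvPolynomial.induction_on with
  | C a =>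
    simp only [pderiv_C, map_zero, mul_zero, Finset.sum_const_zero, eval_C]
    exact hasDerivAt_const _ _
  | add p q hp hq =>
    have h := hp.add hq
    have e : (∑ j, w j * eval (fun i => x i + t * w i) (pderiv j (p + q))) =
        (∑ j, w j * eval (fun i => x i + t * w i) (pderiv j p)) +
        (∑ j, w j * eval (fun i => x i + t * w i) (pderiv j q)) := by
      rw [← Finset.sum_add_distrib]
      apply Finset.sum_congr rfl
      intro j _
      rw [map_add, map_add]; ring
    rw [e]
    simp only [map_add]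
    exact h
  | mul_X p i hp =>
    have hX : HasDerivAt (fun t : ℝ => x i + t * w i) (w i) t := by
      have h1 := ((hasDerivAt_id t).mul_const (w i)).const_add (x i)
      simpa using h1
    have h := hp.mul hX
    have e : (∑ j, w j * eval (fun i => x i + t * w i) (pderiv j (p * X i))) =
        (∑ j, w j * eval (fun i => x i + t * w i) (pderiv j p)) * (x i + t * w i) +
        eval (fun i => x i + t * w i) p * w i := by
      have e1 : ∀ j, w j * eval (fun i => x i + t * w i) (pderiv j (p * X i)) =
          w j * eval (fun i => x i + t * w i) (pderiv j p) * (x i + t * w i) +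
          (if j = i then eval (fun i => x i + t * w i) p * w i else 0) := by
        intro j
        rw [pderiv_mul, pderiv_X, map_add, map_mul, map_mul, eval_X]
        by_cases hj : j = i
        · subst hj
          rw [Pi.single_eq_same, if_pos rfl, map_one]; ring
        · rw [Pi.single_eq_of_ne (fun h => hj h.symm), if_neg hj, map_zero]; ring
      rw [Finset.sum_congr rfl (fun j _ => e1 j), Finset.sum_add_distrib, ← Finset.sum_mul,
        Finset.sum_ite_eq', if_pos (Finset.mem_univ i)]
    rw [e]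
    simp only [map_mul, eval_X]
    exact h

/-- the tangent inequality -/
theorem tangent_lt {Cv : Set (Fin n → ℝ)} {p : MvPolynomial (Fin n) ℝ}
    (h : StrictConvexOn ℝ Cv (fun x => eval x p)) {x z : Fin n → ℝ} (hx : x ∈ Cv) (hz : z ∈ Cv)
    (hne : x ≠ z) : eval x p + ∑ j, (z j - x j) * eval x (pderiv j p) < eval z p := by
  set φ : ℝ → ℝ := fun t => eval (fun i => x i + t * (z i - x i)) p with hφ
  have hpt : ∀ t : ℝ, (fun i => x i + t * (z i - x i)) = (1 - t) • x + t • z := by
    intro t
    funext i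
    simp only [Pi.add_apply, Pi.smul_apply, smul_eq_mul]
    ring
  have hconv : StrictConvexOn ℝ (Set.Icc (0 : ℝ) 1) φ := by
    refine ⟨convex_Icc 0 1, ?_⟩
    intro s hs t ht hst a b ha hb hab
    simp only [hφ, smul_eq_mul]
    have h1 : (1 - s) • x + s • z ∈ Cv := h.1 hx hz (by linarith [hs.2]) hs.1 (by ring)
    have h2 : (1 - t) • x + t • z ∈ Cv := h.1 hx hz (by linarith [ht.2]) ht.1 (by ring)
    have hne' : (1 - s) • x + s • z ≠ (1 - t) • x + t • z := by
      intro e
      apply hne
      funext i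
      have := congrFun e i
      simp only [Pi.add_apply, Pi.smul_apply, smul_eq_mul] at this
      have h3 : (s - t) * (z i - x i) = 0 := by linear_combination this
      rcases mul_eq_zero.mp h3 with h4 | h4
      · exact absurd (sub_eq_zero.mp h4) hst
      · exact (sub_eq_zero.mp h4).symm
    have h3 := h.2 h1 h2 hne' ha hb hab
    have e : (fun i => x i + (a * s + b * t) * (z i - x i)) =
        a • ((1 - s) • x + s • z) + b • ((1 - t) • x + t • z) := by
      funext i
      simp only [Pi.add_apply, Pi.smul_apply, smul_eq_mul]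
      have hb' : b = 1 - a := by linarith
      rw [hb']; ring
    rw [e]
    simp only [smul_eq_mul] at h3
    rw [hpt s, hpt t]
    exact h3
  have hd := hasDerivAt_line p x (fun i => z i - x i) 0
  have h1 := hconv.lt_slope_of_hasDerivAt (x := 0) (y := 1) (by simp) (by simp) one_pos hd
  rw [slope_def_field] at h1
  have e0 : (fun i => x i + (0 : ℝ) * (z i - x i)) = x := by funext i; ring
  have e1 : (fun i => x i + (1 : ℝ) * (z i - x i)) = z := by funext i; ring
  simp only [hφ] at h1
  rw [e0, e1] at h1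
  linarith

/-- The real dynamics of `A ∘ ∇ F`. -/
theorem grad_preper {d : ℕ} (hd : 1 ≤ d) {F : MvPolynomial (Fin n) ℝ} (hF : F.IsHomogeneous (d + 1))
    {A : Matrix (Fin n) (Fin n) ℝ} (hA : A.IsSymm) (hdet : A.det ≠ 0) {f : (Fin n → ℝ) → Fin n → ℝ}
    (hf : ∀ x, f x = A.mulVec (fun j => eval x (pderiv j F))) (hf0 : ∀ x, x ≠ 0 → f x ≠ 0)
    {Cv : Set (Fin n → ℝ)} (hC : StrictConvexOn ℝ Cv (fun x => eval x F)) (hr : ∀ x, f x ∈ Cv)
    {v : Fin n → ℝ} (hv : v ≠ 0) {a b : ℕ} (hab : a < b) {c : ℝ} (hc : c ≠ 0)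
    (h : f^[b] v = c • f^[a] v) : ∃ t : ℝ, t ≠ 0 ∧ f^[3] v = t • f^[1] v := by
  set g : (Fin n → ℝ) → Fin n → ℝ := fun x j => eval x (pderiv j F) with hg
  have hd1 : (d + 1 : ℝ) ≠ 0 := by positivity
  have hdpos : (0 : ℝ) < d + 1 := by positivity
  -- homogeneity
  have hFs : ∀ (s : ℝ) x, eval (s • x) F = s ^ (d + 1) * eval x F := fun s x =>
    eval_smul_of_homog hF s x
  have hgs : ∀ (s : ℝ) x, g (s • x) = s ^ d • g x := by
    intro s x
    funext j
    simp only [hg, Pi.smul_apply, smul_eq_mul]
    exact eval_smul_of_homog (by have := hF.pderiv (i := j); simpa using this) s x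
  have hfs : ∀ (s : ℝ) x, f (s • x) = s ^ d • f x := by
    intro s x
    rw [hf, hf]
    have := hgs s x
    simp only [hg] at this
    rw [this, Matrix.mulVec_smul]
  have heuler : ∀ x, ∑ j, x j * g x j = (d + 1) * eval x F := by
    intro x
    have h1 := congrArg (eval x) hF.sum_X_mul_pderiv
    rw [map_sum] at h1
    simp only [map_mul, eval_X, nsmul_eq_mul, map_natCast] at h1
    simp only [hg]
    rw [h1]
    push_cast
    ring
  have hroot : ∀ s : ℝ, 0 < s → ∀ k : ℕ, 1 ≤ k → ∃ t : ℝ, 0 < t ∧ t ^ k = s := by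
    intro s hs k hk
    exact ⟨s ^ ((k : ℝ)⁻¹), Real.rpow_pos_of_pos hs _,
      Real.rpow_inv_natCast_pow hs.le (by omega)⟩
  have hsmul : ∀ s : ℝ, 0 < s → ∀ u, s • f u ∈ Cv := by
    intro s hs u
    obtain ⟨t, ht, hts⟩ := hroot s hs d hd
    have := hr (t • u)
    rwa [hfs, hts] at this
  -- injectivity of the gradient on Cv
  have hinj : ∀ y ∈ Cv, ∀ z ∈ Cv, f y = f z → y = z := by
    intro y hy z hz hyz
    have hgyz : g y = g z := by
      rw [hf, hf] at hyz
      have hunit : IsUnit A := (Matrix.isUnit_iff_isUnit_det A).mpr (isUnit_iff_ne_zero.mpr hdet)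
      exact Matrix.mulVec_injective_of_isUnit hunit hyz
    by_contra hne
    have h1 := tangent_lt hC hy hz hne
    have h2 := tangent_lt hC hz hy (Ne.symm hne)
    have e1 : ∑ j, (y j - z j) * eval z (pderiv j F) = - ∑ j, (z j - y j) * eval y (pderiv j F) := by
      rw [← Finset.sum_neg_distrib]
      apply Finset.sum_congr rfl
      intro j _
      have := congrFun hgyz j
      simp only [hg] at this
      rw [this]; ring
    rw [e1] at h2
    linarith
  -- positivity
  have hpos : ∀ u, f u ≠ 0 → 0 < eval (f u) F := by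
    intro u hu
    set y := f u with hy
    have hyC : y ∈ Cv := hr u
    have h2y : (2 : ℝ) • y ∈ Cv := hsmul 2 two_pos u
    have hne : y ≠ (2 : ℝ) • y := by
      intro e
      apply hu
      have : (2 : ℝ) • y - y = 0 := by rw [← e, sub_self]
      rw [two_smul, add_sub_cancel_right] at this
      exact this
    have h1 := tangent_lt hC hyC h2y hne
    rw [hFs] at h1
    have e1 : ∑ j, (((2 : ℝ) • y) j - y j) * eval y (pderiv j F) = (d + 1) * eval y F := by
      rw [← heuler]
      apply Finset.sum_congr rfl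
      intro j _
      simp only [Pi.smul_apply, smul_eq_mul, hg]
      ring
    rw [e1] at h1
    have h2 : (d : ℝ) + 2 ≤ 2 ^ (d + 1) := by
      have : d + 2 ≤ 2 ^ (d + 1) := Nat.lt_two_pow_self (n := d + 1)
      exact_mod_cast this
    by_contra hcon
    rw [not_lt] at hcon
    nlinarith
  -- the main inequality
  have hmain : ∀ u w, f u ≠ 0 → f w ≠ 0 → ∃ s : ℝ, 0 < s ∧
      s ^ (d + 1) = eval (f u) F / eval (f w) F ∧
      ((s • f w = f u) ∨ s * ∑ j, f w j * g (f u) j < (d + 1) * eval (f u) F) ∧
      s * ∑ j, f w j * g (f u) j ≤ (d + 1) * eval (f u) F := by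
    intro u w hu hw
    set y := f u with hy
    set z := f w with hz
    have hFy := hpos u hu
    have hFz := hpos w hw
    obtain ⟨s, hs, hsp⟩ := hroot (eval y F / eval z F) (div_pos hFy hFz) (d + 1) (by omega)
    refine ⟨s, hs, hsp, ?_⟩
    have hFsz : eval (s • z) F = eval y F := by
      rw [hFs, hsp, div_mul_cancel₀ _ hFz.ne']
    have e1 : ∑ j, ((s • z) j - y j) * eval y (pderiv j F) =
        s * (∑ j, z j * g y j) - (d + 1) * eval y F := by
      rw [← heuler, Finset.mul_sum, ← Finset.sum_sub_distrib]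
      apply Finset.sum_congr rfl
      intro j _
      simp only [Pi.smul_apply, smul_eq_mul, hg]
      ring
    by_cases hzy : s • z = y
    · refine ⟨Or.inl hzy, ?_⟩
      have h3 : ∑ j, ((s • z) j - y j) * eval y (pderiv j F) = 0 := by
        rw [hzy]; simp
      rw [e1] at h3
      linarith
    · have h1 := tangent_lt hC (hr u) (hsmul s hs w) (Ne.symm hzy)
      rw [← hy, ← hz, hFsz, e1] at h1
      exact ⟨Or.inr (by linarith), by linarith⟩
  -- symmetric pairing
  have hpair : ∀ u, ∑ j, f (f u) j * g u j = (d + 1) * eval (f u) F := by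
    intro u
    rw [← heuler (f u)]
    have e1 : ∑ j, f (f u) j * g u j = (A.mulVec (g (f u))) ⬝ᵥ (g u) :=
      congrArg (fun w => w ⬝ᵥ g u) (hf (f u))
    have e2 : ∑ j, f u j * g (f u) j = (A.mulVec (g u)) ⬝ᵥ (g (f u)) :=
      congrArg (fun w => w ⬝ᵥ g (f u)) (hf u)
    rw [e1, e2]
    have e3 : (A.mulVec (g u)) ⬝ᵥ (g (f u)) = (g (f u)) ⬝ᵥ (A.mulVec (g u)) := dotProduct_comm _ _
    rw [e3, Matrix.dotProduct_mulVec, ← Matrix.mulVec_transpose, hA]
  -- the orbit
  set x : ℕ → Fin n → ℝ := fun k => f^[k] v with hx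
  have hxs : ∀ k, x (k + 1) = f (x k) := fun k => Function.iterate_succ_apply' f k v
  have hx0 : ∀ k, x k ≠ 0 := by
    intro k
    induction k with
    | zero => exact hv
    | succ k ih => rw [hxs]; exact hf0 _ ih
  have hxF : ∀ k, 0 < eval (x (k + 1)) F := by
    intro k
    rw [hxs]
    exact hpos _ (by rw [← hxs]; exact hx0 _)
  set lam : ℕ → ℝ := fun k => Real.log (eval (x (k + 2)) F) - d * Real.log (eval (x (k + 1)) F)
    with hlam
  have hstep : ∀ k, lam k ≤ lam (k + 1) ∧
      (lam k < lam (k + 1) ∨ ∃ s : ℝ, 0 < s ∧ s • x (k + 3) = x (k + 1)) := by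
    intro k
    -- y = x (k+1) = f (x k), z = x (k+3) = f (x (k+2))
    obtain ⟨s, hs, hsp, hor, hle⟩ := hmain (x k) (x (k + 2))
      (by rw [← hxs]; exact hx0 _) (by rw [← hxs]; exact hx0 _)
    rw [← hxs, ← hxs] at hsp hor hle
    have hp : ∑ j, x (k + 3) j * g (x (k + 1)) j = (d + 1) * eval (x (k + 2)) F := by
      have := hpair (x (k + 1))
      rw [← hxs, ← hxs] at this
      exact this
    have e3 : x (k + 2 + 1) = x (k + 3) := rfl
    rw [e3, hp] at hor hle
    rw [e3] at hsp
    have F1 := hxF k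
    have F2 : 0 < eval (x (k + 2)) F := hxF (k + 1)
    have F3 : 0 < eval (x (k + 3)) F := hxF (k + 2)
    have hlogs : (d + 1) * Real.log s = Real.log (eval (x (k + 1)) F) -
        Real.log (eval (x (k + 3)) F) := by
      have := congrArg Real.log hsp
      rw [Real.log_pow, Real.log_div F1.ne' F3.ne'] at this
      push_cast at this
      exact this
    have hlogs' : Real.log (s * eval (x (k + 2)) F) = Real.log s + Real.log (eval (x (k + 2)) F) :=
      Real.log_mul hs.ne' F2.ne'
    have hle' : s * eval (x (k + 2)) F ≤ eval (x (k + 1)) F := by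
      have : (d + 1) * (s * eval (x (k + 2)) F) ≤ (d + 1) * eval (x (k + 1)) F := by linarith
      exact le_of_mul_le_mul_left this hdpos
    have hl1 := Real.log_le_log (by positivity) hle'
    rw [hlogs'] at hl1
    have edef1 : lam k = Real.log (eval (x (k + 2)) F) - d * Real.log (eval (x (k + 1)) F) := rfl
    have edef2 : lam (k + 1) = Real.log (eval (x (k + 3)) F) - d * Real.log (eval (x (k + 2)) F) :=
      rfl
    refine ⟨?_, ?_⟩
    · rw [edef1, edef2]
      have := mul_le_mul_of_nonneg_left hl1 hdpos.le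
      nlinarith
    · rcases hor with h1 | h1
      · exact Or.inr ⟨s, hs, h1⟩
      · left
        have hlt' : s * eval (x (k + 2)) F < eval (x (k + 1)) F := by
          have : (d + 1) * (s * eval (x (k + 2)) F) < (d + 1) * eval (x (k + 1)) F := by linarith
          exact lt_of_mul_lt_mul_left this hdpos.le
        have hl2 := Real.log_lt_log (by positivity) hlt'
        rw [hlogs'] at hl2
        rw [edef1, edef2]
        have := mul_lt_mul_of_pos_left hl2 hdpos
        nlinarith
  have hmono : Monotone lam := monotone_nat_of_le_succ (fun k => (hstep k).1)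
  -- preperiodicity
  have hb1 : x (b + 1) = c ^ d • x (a + 1) := by
    rw [hxs, hxs]
    have : x b = c • x a := h
    rw [this, hfs]
  have hb2 : x (b + 2) = (c ^ d) ^ d • x (a + 2) := by
    rw [hxs (b + 1), hxs (a + 1), hb1, hfs]
  have hlamab : lam b = lam a := by
    have hcd : c ^ d ≠ 0 := pow_ne_zero _ hc
    have e1 : Real.log (eval (x (b + 1)) F) =
        (d + 1) * Real.log (c ^ d) + Real.log (eval (x (a + 1)) F) := by
      rw [hb1, hFs, Real.log_mul (pow_ne_zero _ hcd) (hxF a).ne', Real.log_pow]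
      push_cast; ring
    have e2 : Real.log (eval (x (b + 2)) F) =
        (d + 1) * (d * Real.log (c ^ d)) + Real.log (eval (x (a + 2)) F) := by
      rw [hb2, hFs, Real.log_mul (pow_ne_zero _ (pow_ne_zero _ hcd)) (hxF (a + 1)).ne', Real.log_pow,
        Real.log_pow]
      push_cast; ring
    simp only [hlam]
    rw [e1, e2]; ring
  have heq : lam a = lam (a + 1) := by
    apply le_antisymm (hstep a).1
    rw [← hlamab]
    exact hmono (by omega)
  obtain ⟨s, hs, hsx⟩ : ∃ s : ℝ, 0 < s ∧ s • x (a + 3) = x (a + 1) := by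
    rcases (hstep a).2 with h1 | h1
    · exact absurd heq h1.ne
    · exact h1
  have hstart : ∃ t : ℝ, 0 < t ∧ x (a + 3) = t • x (a + 1) := by
    refine ⟨s⁻¹, inv_pos.mpr hs, ?_⟩
    rw [← hsx, smul_smul, inv_mul_cancel₀ hs.ne', one_smul]
  -- descend
  have hdesc : ∀ k, (∃ t : ℝ, 0 < t ∧ x (k + 3) = t • x (k + 1)) →
      ∃ t : ℝ, 0 < t ∧ x 3 = t • x 1 := by
    intro k
    induction k with
    | zero => intro hk; exact hk
    | succ k ih =>
      intro hk
      apply ih
      obtain ⟨t, ht, hxt⟩ := hk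
      obtain ⟨r, hrp, hrt⟩ := hroot t ht d hd
      refine ⟨r, hrp, ?_⟩
      apply hinj _ _ _ _
      · have e1 : x (k + 1 + 3) = f (x (k + 3)) := hxs (k + 3)
        have e2 : x (k + 1 + 1) = f (x (k + 1)) := hxs (k + 1)
        rw [← e1, hxt, e2, hfs, hrt]
      · rw [hxs (k + 2)]; exact hr _
      · rw [hxs k]; exact hsmul r hrp _
  obtain ⟨t, ht, hfin⟩ := hdesc a hstart
  exact ⟨t, ht.ne', hfin⟩

end Pool.Agent.UBC
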