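import Pool.Agent.UBC.Real.Grad

set_option autoImplicit false

/-!
# Gradient maps of convex forms, twisted version
-/

namespace Pool.Agent.UBC

open MvPolynomial Matrix

variable {n : ℕ}

/-- derivatives of a form that is invariant under a linear map -/
theorem grad_invariant {F : MvPolynomial (Fin n) ℝ} {S : Matrix (Fin n) (Fin n) ℝ}
    (hFS : ∀ x, eval (S.mulVec x) F = eval x F) (x w : Fin n → ℝ) :
    w ⬝ᵥ (fun j => eval x (pderiv j F)) =
      (S.mulVec w) ⬝ᵥ (fun j => eval (S.mulVec x) (pderiv j F)) := by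
  have h1 := hasDerivAt_line F x w 0
  have h2 := hasDerivAt_line F (S.mulVec x) (S.mulVec w) 0
  have e : (fun t : ℝ => eval (fun i => x i + t * w i) F) =
      (fun t : ℝ => eval (fun i => S.mulVec x i + t * S.mulVec w i) F) := by
    funext t
    rw [← hFS]
    congr 2
    have : (fun i => x i + t * w i) = x + t • w := by
      funext i; simp
    rw [this, Matrix.mulVec_add, Matrix.mulVec_smul]
    funext i
    simp
  rw [e] at h1
  have h3 := h1.unique h2
  simp only [zero_mul, add_zero] at h3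
  exact h3

/-- The real dynamics of `A ∘ ∇ F` with `S A = Aᵀ`, `F ∘ S = F`. -/
theorem grad_preper2 {d : ℕ} (hd : 1 ≤ d) {F : MvPolynomial (Fin n) ℝ} (hF : F.IsHomogeneous (d + 1))
    {A S : Matrix (Fin n) (Fin n) ℝ} (hSA : S * A = Aᵀ) (hdet : A.det ≠ 0)
    (hFS : ∀ x, eval (S.mulVec x) F = eval x F) {f : (Fin n → ℝ) → Fin n → ℝ}
    (hf : ∀ x, f x = A.mulVec (fun j => eval x (pderiv j F))) (hf0 : ∀ x, x ≠ 0 → f x ≠ 0)
    {Cv : Set (Fin n → ℝ)} (hC : StrictConvexOn ℝ Cv (fun x => eval x F)) (hr : ∀ x, f x ∈ Cv)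
    {v : Fin n → ℝ} (hv : v ≠ 0) {a b : ℕ} (hab : a < b) {c : ℝ} (hc : c ≠ 0)
    (h : f^[b] v = c • f^[a] v) :
    ∃ t : ℝ, t ≠ 0 ∧ S.mulVec (f^[3] v) = t • f^[1] v := by
  set g : (Fin n → ℝ) → Fin n → ℝ := fun x j => eval x (pderiv j F) with hg
  have hd1 : (d + 1 : ℝ) ≠ 0 := by positivity
  have hdpos : (0 : ℝ) < d + 1 := by positivity
  -- the matrix `S`
  have hSdet : S.det ≠ 0 := by
    intro h0
    have := congrArg Matrix.det hSA
    rw [Matrix.det_mul, Matrix.det_transpose, h0, zero_mul] at this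
    exact hdet this.symm
  have hSunit : IsUnit S.det := isUnit_iff_ne_zero.mpr hSdet
  have hSinv : ∀ x, S.mulVec (S⁻¹.mulVec x) = x := by
    intro x
    rw [Matrix.mulVec_mulVec, Matrix.mul_nonsing_inv _ hSunit, Matrix.one_mulVec]
  have hgS : ∀ y, g y = Sᵀ.mulVec (g (S.mulVec y)) := by
    intro y
    have h1 : ∀ w, w ⬝ᵥ g y = w ⬝ᵥ (Sᵀ.mulVec (g (S.mulVec y))) := by
      intro w
      have h2 := grad_invariant hFS y w
      have h3 : (S.mulVec w) ⬝ᵥ g (S.mulVec y) = w ⬝ᵥ (Sᵀ.mulVec (g (S.mulVec y))) := by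
        rw [Matrix.mulVec_transpose, dotProduct_comm (S.mulVec w), Matrix.dotProduct_mulVec,
          dotProduct_comm]
      exact h2.trans h3
    funext j
    have := h1 (Pi.single j 1)
    simpa using this
  have hcomm : ∀ y, S.mulVec (f y) = f (S.mulVec y) := by
    intro y
    rw [hf, hf, Matrix.mulVec_mulVec, hSA]
    have e1 : (fun j => eval y (pderiv j F)) = Sᵀ.mulVec (g (S.mulVec y)) := hgS y
    rw [e1, Matrix.mulVec_mulVec, ← Matrix.transpose_mul, hSA, Matrix.transpose_transpose]
  -- homogeneity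
  have hFs : ∀ (s : ℝ) x, eval (s • x) F = s ^ (d + 1) * eval x F := fun s x =>
    eval_smul_of_homog hF s x
  have hgs : ∀ (s : ℝ) x, g (s • x) = s ^ d • g x := by
    intro s x
    funext j
    simp only [hg, Pi.smul_apply, smul_eq_mul]
    exact eval_smul_of_homog (by have := hF.pderiv (i := j); simpa using this) s x
  have hfs : ∀ (s : ℝ) x, f (s • x) = s ^ d • f x := by
    intro s x
    rw [hf, hf]
    have := hgs s x
    simp only [hg] at this
    rw [this, Matrix.mulVec_smul]
  have heuler : ∀ x, ∑ j, x j * g x j = (d + 1) * eval x F := by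
    intro x
    have h1 := congrArg (eval x) hF.sum_X_mul_pderiv
    rw [map_sum] at h1
    simp only [map_mul, eval_X, nsmul_eq_mul, map_natCast] at h1
    simp only [hg]
    rw [h1]
    push_cast
    ring
  have hroot : ∀ s : ℝ, 0 < s → ∀ k : ℕ, 1 ≤ k → ∃ t : ℝ, 0 < t ∧ t ^ k = s := by
    intro s hs k hk
    exact ⟨s ^ ((k : ℝ)⁻¹), Real.rpow_pos_of_pos hs _,
      Real.rpow_inv_natCast_pow hs.le (by omega)⟩
  have hsmul : ∀ s : ℝ, 0 < s → ∀ u, s • f u ∈ Cv := by
    intro s hs u
    obtain ⟨t, ht, hts⟩ := hroot s hs d hd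
    have := hr (t • u)
    rwa [hfs, hts] at this
  -- injectivity on Cv
  have hinj : ∀ y ∈ Cv, ∀ z ∈ Cv, f y = f z → y = z := by
    intro y hy z hz hyz
    have hgyz : g y = g z := by
      rw [hf, hf] at hyz
      have hunit : IsUnit A := (Matrix.isUnit_iff_isUnit_det A).mpr (isUnit_iff_ne_zero.mpr hdet)
      exact Matrix.mulVec_injective_of_isUnit hunit hyz
    by_contra hne
    have h1 := tangent_lt hC hy hz hne
    have h2 := tangent_lt hC hz hy (Ne.symm hne)
    have e1 : ∑ j, (y j - z j) * eval z (pderiv j F) = - ∑ j, (z j - y j) * eval y (pderiv j F) := by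
      rw [← Finset.sum_neg_distrib]
      apply Finset.sum_congr rfl
      intro j _
      have := congrFun hgyz j
      simp only [hg] at this
      rw [this]; ring
    rw [e1] at h2
    linarith
  -- positivity
  have hpos : ∀ u, f u ≠ 0 → 0 < eval (f u) F := by
    intro u hu
    set y := f u with hy
    have hyC : y ∈ Cv := hr u
    have h2y : (2 : ℝ) • y ∈ Cv := hsmul 2 two_pos u
    have hne : y ≠ (2 : ℝ) • y := by
      intro e
      apply hu
      have : (2 : ℝ) • y - y = 0 := by rw [← e, sub_self]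
      rw [two_smul, add_sub_cancel_right] at this
      exact this
    have h1 := tangent_lt hC hyC h2y hne
    rw [hFs] at h1
    have e1 : ∑ j, (((2 : ℝ) • y) j - y j) * eval y (pderiv j F) = (d + 1) * eval y F := by
      rw [← heuler]
      apply Finset.sum_congr rfl
      intro j _
      simp only [Pi.smul_apply, smul_eq_mul, hg]
      ring
    rw [e1] at h1
    have h2 : (d : ℝ) + 2 ≤ 2 ^ (d + 1) := by
      have : d + 2 ≤ 2 ^ (d + 1) := Nat.lt_two_pow_self (n := d + 1)
      exact_mod_cast this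
    by_contra hcon
    rw [not_lt] at hcon
    nlinarith
  -- the main inequality
  have hmain : ∀ u w, f u ≠ 0 → f w ≠ 0 → ∃ s : ℝ, 0 <  s ∧
      s ^ (d + 1) = eval (f u) F / eval (f w) F ∧
      ((s • f w = f u) ∨ s * ∑ j, f w j * g (f u) j < (d + 1) * eval (f u) F) ∧
      s * ∑ j, f w j * g (f u) j ≤ (d + 1) * eval (f u) F := by
    intro u w hu hw
    set y := f u with hy
    set z := f w with hz
    have hFy := hpos u hu
    have hFz := hpos w hw
    obtain ⟨s, hs, hsp⟩ := hroot (eval y F / eval z F) (div_pos hFy hFz) (d + 1) (by omega)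
    refine ⟨s, hs, hsp, ?_⟩
    have hFsz : eval (s • z) F = eval y F := by
      rw [hFs, hsp, div_mul_cancel₀ _ hFz.ne']
    have e1 : ∑ j, ((s • z) j - y j) * eval y (pderiv j F) =
        s * (∑ j, z j * g y j) - (d + 1) * eval y F := by
      rw [← heuler, Finset.mul_sum, ← Finset.sum_sub_distrib]
      apply Finset.sum_congr rfl
      intro j _
      simp only [Pi.smul_apply, smul_eq_mul, hg]
      ring
    by_cases hzy : s • z = y
    · refine ⟨Or.inl hzy, ?_⟩
      have h3 : ∑ j, ((s • z) j - y j) * eval y (pderiv j F) = 0 := by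
        rw [hzy]; simp
      rw [e1] at h3
      linarith
    · have h1 := tangent_lt hC (hr u) (hsmul s hs w) (Ne.symm hzy)
      rw [← hy, ← hz, hFsz, e1] at h1
      exact ⟨Or.inr (by linarith), by linarith⟩
  -- twisted pairing
  have hpair : ∀ y, ∑ j, f (f (S.mulVec y)) j * g y j = (d + 1) * eval (f (S.mulVec y)) F := by
    intro y
    set u := S.mulVec y with hu
    rw [← heuler (f u)]
    have e1 : ∑ j, f (f u) j * g y j = (A.mulVec (g (f u))) ⬝ᵥ (g y) :=
      congrArg (fun w => w ⬝ᵥ g y) (hf (f u))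
    have e2 : ∑ j, f u j * g (f u) j = (f u) ⬝ᵥ (g (f u)) := rfl
    have e4 : Aᵀ.mulVec (g y) = f u := by
      rw [← hSA, ← Matrix.mulVec_mulVec, hu, ← hcomm, hf y]
    rw [e1, e2, ← e4, dotProduct_comm, Matrix.dotProduct_mulVec, ← Matrix.mulVec_transpose]
  -- the orbit
  set x : ℕ → Fin n → ℝ := fun k => f^[k] v with hx
  have hxs : ∀ k, x (k + 1) = f (x k) := fun k => Function.iterate_succ_apply' f k v
  have hx0 : ∀ k, x k ≠ 0 := by
    intro k
    induction k with
    | zero => exact hv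
    | succ k ih => rw [hxs]; exact hf0 _ ih
  have hxF : ∀ k, 0 < eval (x (k + 1)) F := by
    intro k
    rw [hxs]
    exact hpos _ (by rw [← hxs]; exact hx0 _)
  set lam : ℕ → ℝ := fun k => Real.log (eval (x (k + 2)) F) - d * Real.log (eval (x (k + 1)) F)
    with hlam
  have hstep : ∀ k, lam k ≤ lam (k + 1) ∧
      (lam k < lam (k + 1) ∨ ∃ s : ℝ, 0 < s ∧ s • S.mulVec (x (k + 3)) = x (k + 1)) := by
    intro k
    set y0 := S⁻¹.mulVec (x k) with hy0
    have hSy0 : S.mulVec y0 = x k := hSinv _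
    have hSf : S.mulVec (f y0) = x (k + 1) := by rw [hcomm, hSy0, hxs]
    have hFy : eval (f y0) F = eval (x (k + 1)) F := by rw [← hSf, hFS]
    have hfy0 : f y0 ≠ 0 := by
      intro h0
      rw [h0, Matrix.mulVec_zero] at hSf
      exact hx0 _ hSf.symm
    obtain ⟨s, hs, hsp, hor, hle⟩ := hmain y0 (x (k + 2)) hfy0 (by rw [← hxs]; exact hx0 _)
    rw [hFy, ← hxs] at hsp hor hle
    have hp : ∑ j, x (k + 3) j * g (f y0) j = (d + 1) * eval (x (k + 2)) F := by
      have := hpair (f y0)
      rw [hSf, ← hxs, ← hxs] at this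
      exact this
    have e3 : x (k + 2 + 1) = x (k + 3) := rfl
    rw [e3, hp] at hor hle
    rw [e3] at hsp
    have F1 := hxF k
    have F2 : 0 < eval (x (k + 2)) F := hxF (k + 1)
    have F3 : 0 < eval (x (k + 3)) F := hxF (k + 2)
    have hlogs : (d + 1) * Real.log s = Real.log (eval (x (k + 1)) F) -
        Real.log (eval (x (k + 3)) F) := by
      have := congrArg Real.log hsp
      rw [Real.log_pow, Real.log_div F1.ne' F3.ne'] at this
      push_cast at this
      exact this
    have hlogs' : Real.log (s * eval (x (k + 2)) F) = Real.log s + Real.log (eval (x (k + 2)) F) :=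
      Real.log_mul hs.ne' F2.ne'
    have hle' : s * eval (x (k + 2)) F ≤ eval (x (k + 1)) F := by
      have : (d + 1) * (s * eval (x (k + 2)) F) ≤ (d + 1) * eval (x (k + 1)) F := by linarith
      exact le_of_mul_le_mul_left this hdpos
    have hl1 := Real.log_le_log (by positivity) hle'
    rw [hlogs'] at hl1
    have edef1 : lam k = Real.log (eval (x (k + 2)) F) - d * Real.log (eval (x (k + 1)) F) := rfl
    have edef2 : lam (k + 1) = Real.log (eval (x (k + 3)) F) - d * Real.log (eval (x (k + 2)) F) :=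
      rfl
    refine ⟨?_, ?_⟩
    · rw [edef1, edef2]
      have := mul_le_mul_of_nonneg_left hl1 hdpos.le
      nlinarith
    · rcases hor with h1 | h1
      · refine Or.inr ⟨s, hs, ?_⟩
        rw [← Matrix.mulVec_smul, h1, hSf]
      · left
        have hlt' : s * eval (x (k + 2)) F < eval (x (k + 1)) F := by
          have : (d + 1) * (s * eval (x (k + 2)) F) < (d + 1) * eval (x (k + 1)) F := by linarith
          exact lt_of_mul_lt_mul_left this hdpos.le
        have hl2 := Real.log_lt_log (by positivity) hlt'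
        rw [hlogs'] at hl2
        rw [edef1, edef2]
        have := mul_lt_mul_of_pos_left hl2 hdpos
        nlinarith
  have hmono : Monotone lam := monotone_nat_of_le_succ (fun k => (hstep k).1)
  -- preperiodicity
  have hb1 : x (b + 1) = c ^ d • x (a + 1) := by
    rw [hxs, hxs]
    have : x b = c • x a := h
    rw [this, hfs]
  have hb2 : x (b + 2) = (c ^ d) ^ d • x (a + 2) := by
    rw [hxs (b + 1), hxs (a + 1), hb1, hfs]
  have hlamab : lam b = lam a := by
    have hcd : c ^ d ≠ 0 := pow_ne_zero _ hc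
    have e1 : Real.log (eval (x (b + 1)) F) =
        (d + 1) * Real.log (c ^ d) + Real.log (eval (x (a + 1)) F) := by
      rw [hb1, hFs, Real.log_mul (pow_ne_zero _ hcd) (hxF a).ne', Real.log_pow]
      push_cast; ring
    have e2 : Real.log (eval (x (b + 2)) F) =
        (d + 1) * (d * Real.log (c ^ d)) + Real.log (eval (x (a + 2)) F) := by
      rw [hb2, hFs, Real.log_mul (pow_ne_zero _ (pow_ne_zero _ hcd)) (hxF (a + 1)).ne', Real.log_pow,
        Real.log_pow]
      push_cast; ring
    simp only [hlam]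
    rw [e1, e2]; ring
  have heq : lam a = lam (a + 1) := by
    apply le_antisymm (hstep a).1
    rw [← hlamab]
    exact hmono (by omega)
  obtain ⟨s, hs, hsx⟩ : ∃ s : ℝ, 0 < s ∧ s • S.mulVec (x (a + 3)) = x (a + 1) := by
    rcases (hstep a).2 with h1 | h1
    · exact absurd heq h1.ne
    · exact h1
  have hstart : ∃ t : ℝ, 0 < t ∧ S.mulVec (x (a + 3)) = t • x (a + 1) := by
    refine ⟨s⁻¹, inv_pos.mpr hs, ?_⟩
    rw [← hsx, smul_smul, inv_mul_cancel₀ hs.ne', one_smul]
  -- descend
  have hdesc : ∀ k, (∃ t : ℝ, 0 < t ∧ S.mulVec (x (k + 3)) = t • x (k + 1)) →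
      ∃ t : ℝ, 0 < t ∧ S.mulVec (x 3) = t • x 1 := by
    intro k
    induction k with
    | zero => intro hk; exact hk
    | succ k ih =>
      intro hk
      apply ih
      obtain ⟨t, ht, hxt⟩ := hk
      obtain ⟨r, hrp, hrt⟩ := hroot t ht d hd
      refine ⟨r, hrp, ?_⟩
      apply hinj _ _ _ _
      · have e1 : x (k + 1 + 3) = f (x (k + 3)) := hxs (k + 3)
        have e2 : x (k + 1 + 1) = f (x (k + 1)) := hxs (k + 1)
        rw [← hcomm, ← e1, hxt, e2, hfs, hrt]
      · rw [hxs (k + 2), hcomm]; exact hr _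
      · rw [hxs k]; exact hsmul r hrp _
  obtain ⟨t, ht, hfin⟩ := hdesc a hstart
  exact ⟨t, ht.ne', hfin⟩

end Pool.Agent.UBC
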