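import Pool.Agent.UBC.Real.Ultra
import Pool.Agent.UBC.Homog

set_option autoImplicit false

/-!
# Polynomial maps given by forms
-/

namespace Pool.Agent.UBC

open MvPolynomial

variable {n : ℕ} {k L : Type*} [Field k] [Field L]

/-- the map given by polynomials -/
noncomputable def pmap (f : Fin n → MvPolynomial (Fin n) k) (x : Fin n → k) : Fin n → k :=
  fun i => eval x (f i)

theorem pmap_map (τ : k →+* L) (f : Fin n → MvPolynomial (Fin n) k) (x : Fin n → k) :
    pmap (fun i => map τ (f i)) (fun i => τ (x i)) = fun i => τ (pmap f x i) := by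
  funext i
  simp only [pmap]
  rw [eval_map]
  exact (eval₂_comp τ x _).symm

theorem pmap_iterate_map (τ : k →+* L) (f : Fin n → MvPolynomial (Fin n) k) (x : Fin n → k)
    (m : ℕ) : (pmap (fun i => map τ (f i)))^[m] (fun i => τ (x i)) =
      fun i => τ ((pmap f)^[m] x i) := by
  induction m with
  | zero => rfl
  | succ m ih => rw [Function.iterate_succ_apply', Function.iterate_succ_apply', ih, pmap_map]

theorem pmap_smul {d : ℕ} {f : Fin n → MvPolynomial (Fin n) k} (hf : ∀ i, (f i).IsHomogeneous d)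
    (s : k) (x : Fin n → k) : pmap f (s • x) = s ^ d • pmap f x := by
  funext i
  simp only [pmap, Pi.smul_apply, smul_eq_mul]
  exact eval_smul_of_homog (hf i) s x

theorem pmap_iterate_smul {d : ℕ} {f : Fin n → MvPolynomial (Fin n) k}
    (hf : ∀ i, (f i).IsHomogeneous d) (s : k) (x : Fin n → k) (m : ℕ) :
    (pmap f)^[m] (s • x) = s ^ (d ^ m) • (pmap f)^[m] x := by
  induction m with
  | zero => simp
  | succ m ih =>
    rw [Function.iterate_succ_apply', ih, pmap_smul hf, ← pow_mul, ← pow_succ,
      Function.iterate_succ_apply']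

theorem eval_bind₁'' (P : Fin n → MvPolynomial (Fin n) k) (q : MvPolynomial (Fin n) k)
    (x : Fin n → k) : eval x (bind₁ P q) = eval (pmap P x) q :=
  eval₂Hom_bind₁ (RingHom.id k) x P q

/-- the components of the third iterate -/
noncomputable def poly3 (f : Fin n → MvPolynomial (Fin n) k) (i : Fin n) :
    MvPolynomial (Fin n) k :=
  bind₁ f (bind₁ f (f i))

theorem poly3_homog {d : ℕ} {f : Fin n → MvPolynomial (Fin n) k}
    (hf : ∀ i, (f i).IsHomogeneous d) (i : Fin n) : (poly3 f i).IsHomogeneous (d ^ 3) := by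
  have h1 : (bind₁ f (f i)).IsHomogeneous (d * d) := (hf i).aeval f hf
  have h2 : (bind₁ f (bind₁ f (f i))).IsHomogeneous (d * (d * d)) := h1.aeval f hf
  have e : d * (d * d) = d ^ 3 := by ring
  rw [e] at h2
  exact h2

theorem eval_poly3 (f : Fin n → MvPolynomial (Fin n) k) (i : Fin n) (x : Fin n → k) :
    eval x (poly3 f i) = (pmap f)^[3] x i := by
  unfold poly3
  rw [eval_bind₁'', eval_bind₁'']
  rfl

/-- nonsingularity -/
theorem pmap_ne_zero {f : Fin n → MvPolynomial (Fin n) k} {r : ℕ}
    (hr : ∀ i, (X i : MvPolynomial (Fin n) k) ^ r ∈ Ideal.span (Set.range f))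
    (τ : k →+* L) {x : Fin n → L} (hx : x ≠ 0) : pmap (fun i => map τ (f i)) x ≠ 0 := by
  intro h
  apply hx
  apply eq_zero_of_pow_mem hr τ x
  intro j
  have h2 := congrFun h j
  simp only [pmap, Pi.zero_apply] at h2
  rw [eval_map] at h2
  exact h2

end Pool.Agent.UBC
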