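import Pool.Agent.UBC.Real.FinSol

set_option autoImplicit false

/-!
# A uniform bound for the number of solutions of polynomial systems
-/

namespace Pool.Agent.UBC

open Filter

/-- An ultrapower of the complex numbers. -/
abbrev UC : Type := Filter.Germ (Filter.hyperfilter ℕ : Filter ℕ) ℂ

/-- The quotient map. -/
noncomputable abbrev toUC : (ℕ → ℂ) →+* UC := Filter.Germ.coeRingHom (Filter.hyperfilter ℕ : Filter ℕ)

theorem toUC_surj : Function.Surjective toUC := by
  intro y
  induction y using Filter.Germ.inductionOn with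
  | _ f => exact ⟨f, rfl⟩

theorem toUC_eq_iff {a b : ℕ → ℂ} :
    toUC a = toUC b ↔ ∀ᶠ m in (Filter.hyperfilter ℕ : Filter ℕ), a m = b m :=
  Filter.Germ.coe_eq

theorem toUC_eq_zero {a : ℕ → ℂ} :
    toUC a = 0 ↔ ∀ᶠ m in (Filter.hyperfilter ℕ : Filter ℕ), a m = 0 := by
  rw [← map_zero toUC, toUC_eq_iff]
  rfl

theorem eventually_ge_hyper (j : ℕ) : ∀ᶠ m in (Filter.hyperfilter ℕ : Filter ℕ), j ≤ m := by
  have h1 : ∀ᶠ m in Filter.cofinite, j ≤ m := by
    rw [Nat.cofinite_eq_atTop]
    exact Filter.eventually_ge_atTop j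
  exact Filter.hyperfilter_le_cofinite h1

noncomputable instance : IsAlgClosed UC := by
  apply IsAlgClosed.of_exists_root
  intro p hp hirr
  have hdeg : 0 < p.natDegree := hirr.natDegree_pos
  have hl : p ∈ Polynomial.lifts toUC := by
    rw [Polynomial.lifts_iff_coeff_lifts]
    intro n
    exact toUC_surj _
  obtain ⟨q, hq1, hq2, hq3⟩ := Polynomial.lifts_and_natDegree_eq_and_monic hl hp
  have hroot : ∀ m : ℕ, ∃ r : ℂ, (q.map (Pi.evalRingHom (fun _ : ℕ => ℂ) m)).eval r = 0 := by
    intro m
    apply IsAlgClosed.exists_root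
    have hmon := hq3.map (Pi.evalRingHom (fun _ : ℕ => ℂ) m)
    rw [Polynomial.degree_eq_natDegree hmon.ne_zero, hq3.natDegree_map, hq2]
    intro h
    have : p.natDegree = 0 := by exact_mod_cast h
    omega
  choose r hr using hroot
  refine ⟨toUC r, ?_⟩
  rw [← hq1, Polynomial.eval_map, Polynomial.eval₂_at_apply]
  have : q.eval r = 0 := by
    funext m
    have h1 := hr m
    have h2 : (Pi.evalRingHom (fun _ : ℕ => ℂ) m) (q.eval r) =
        (q.map (Pi.evalRingHom (fun _ : ℕ => ℂ) m)).eval (r m) := by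
      rw [Polynomial.eval_map, ← Polynomial.eval₂_at_apply]
      rfl
    rw [h1] at h2
    exact h2
  rw [this, map_zero]

open MvPolynomial

theorem uniform_sol (n e : ℕ) : ∃ C : ℕ, ∀ f g : Fin n → MvPolynomial (Fin n) ℂ,
    (∀ i, (f i).IsHomogeneous e) → (∀ x : Fin n → ℂ, (∀ i, eval x (f i) = 0) → x = 0) →
    (∀ i, (g i).totalDegree < e) → ∀ S : Finset (Fin n → ℂ),
      (∀ x ∈ S, ∀ i, eval x (f i) = eval x (g i)) → S.card ≤ C := by
  classical
  by_contra hcon
  push Not at hcon
  choose f g hf hf0 hg S hS hcard using hcon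
  set T : Finset (Fin n →₀ ℕ) := Finset.Iic (Finsupp.equivFunOnFinite.symm (fun _ => e)) with hT
  have hTmem : ∀ α : Fin n →₀ ℕ, α.degree ≤ e → α ∈ T := by
    intro α hα
    rw [hT, Finset.mem_Iic]
    intro i
    exact (Finsupp.le_degree i α).trans hα
  set P : Fin n → MvPolynomial (Fin n) (ℕ → ℂ) := fun i =>
    ∑ α ∈ T.filter (fun α => α.degree = e), monomial α (fun m => coeff α (f m i)) with hP
  set Q : Fin n → MvPolynomial (Fin n) (ℕ → ℂ) := fun i =>
    ∑ α ∈ T.filter (fun α => α.degree < e), monomial α (fun m => coeff α (g m i)) with hQ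
  have hPm : ∀ i m, MvPolynomial.map (Pi.evalRingHom (fun _ : ℕ => ℂ) m) (P i) = f m i := by
    intro i m
    ext α
    simp only [hP, coeff_map, coeff_sum, coeff_monomial, Finset.sum_ite_eq', Pi.evalRingHom_apply]
    by_cases hα : α ∈ T.filter (fun α => α.degree = e)
    · rw [if_pos hα]
    · rw [if_neg hα]
      symm
      apply (hf m i).coeff_eq_zero
      intro h
      exact hα (Finset.mem_filter.mpr ⟨hTmem α h.le, h⟩)
  have hQm : ∀ i m, MvPolynomial.map (Pi.evalRingHom (fun _ : ℕ => ℂ) m) (Q i) = g m i := by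
    intro i m
    ext α
    simp only [hQ, coeff_map, coeff_sum, coeff_monomial, Finset.sum_ite_eq', Pi.evalRingHom_apply]
    by_cases hα : α ∈ T.filter (fun α => α.degree < e)
    · rw [if_pos hα]
    · rw [if_neg hα]
      by_contra h
      apply hα
      have h1 : α ∈ (g m i).support := by
        rw [mem_support_iff]; exact fun h' => h h'.symm
      have h2 : α.degree ≤ (g m i).totalDegree := le_totalDegree h1
      have h3 := hg m i
      exact Finset.mem_filter.mpr ⟨hTmem α (by omega), by omega⟩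
  set F : Fin n → MvPolynomial (Fin n) UC := fun i => MvPolynomial.map toUC (P i) with hF
  set G : Fin n → MvPolynomial (Fin n) UC := fun i => MvPolynomial.map toUC (Q i) with hG
  have hFhom : ∀ i, (F i).IsHomogeneous e := by
    intro i
    apply IsHomogeneous.map
    apply IsHomogeneous.sum
    intro α hα
    exact isHomogeneous_monomial _ (Finset.mem_filter.mp hα).2
  have hGdeg : ∀ i, (G i).totalDegree < e := by
    intro i
    have he : 0 < e := lt_of_le_of_lt (Nat.zero_le _) (hg 0 i)
    rw [totalDegree, Finset.sup_lt_iff he]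
    intro α hα
    have h1 : α ∈ (Q i).support := support_map_subset _ _ hα
    have h2 : α ∈ T.filter (fun α => α.degree < e) := by
      by_contra h
      rw [mem_support_iff] at h1
      apply h1
      simp only [hQ, coeff_sum, coeff_monomial, Finset.sum_ite_eq']
      rw [if_neg h]
    exact (Finset.mem_filter.mp h2).2
  -- evaluation
  have hevU : ∀ (R : MvPolynomial (Fin n) (ℕ → ℂ)) (Y : Fin n → (ℕ → ℂ)),
      eval (fun k => toUC (Y k)) (MvPolynomial.map toUC R) = toUC (eval Y R) := by
    intro R Y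
    rw [eval_map]
    exact (MvPolynomial.eval₂_comp toUC Y R).symm
  have hevm : ∀ (R : MvPolynomial (Fin n) (ℕ → ℂ)) (Y : Fin n → (ℕ → ℂ)) (m : ℕ),
      (eval Y R) m = eval (fun k => Y k m)
        (MvPolynomial.map (Pi.evalRingHom (fun _ : ℕ => ℂ) m) R) := by
    intro R Y m
    rw [eval_map]
    exact MvPolynomial.eval₂_comp (Pi.evalRingHom (fun _ : ℕ => ℂ) m) Y R
  have hF0 : ∀ y : Fin n → UC, (∀ i, eval y (F i) = 0) → y = 0 := by
    intro y hy
    choose Y hY using fun k => toUC_surj (y k)
    have hyY : y = fun k => toUC (Y k) := by funext k; rw [hY]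
    rw [hyY] at hy
    have h1 : ∀ i, ∀ᶠ m in (Filter.hyperfilter ℕ : Filter ℕ), eval (fun k => Y k m) (f m i) = 0 := by
      intro i
      have := hy i
      simp only [hF] at this
      rw [hevU, toUC_eq_zero] at this
      refine this.mono (fun m hm => ?_)
      rw [← hPm i m, ← hevm]; exact hm
    have h2 : ∀ᶠ m in (Filter.hyperfilter ℕ : Filter ℕ), ∀ i, eval (fun k => Y k m) (f m i) = 0 :=
      Filter.eventually_all.mpr h1
    have h3 : ∀ᶠ m in (Filter.hyperfilter ℕ : Filter ℕ), (fun k => Y k m) = 0 :=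
      h2.mono (fun m hm => hf0 m _ hm)
    rw [hyY]
    funext k
    rw [Pi.zero_apply, toUC_eq_zero]
    exact h3.mono (fun m hm => congrFun hm k)
  have hfin := finite_sol F G hFhom hF0 hGdeg
  -- infinitely many solutions
  have henum : ∀ m : ℕ, ∃ x : ℕ → (Fin n → ℂ), (∀ j ≤ m, x j ∈ S m) ∧
      (∀ i ≤ m, ∀ j ≤ m, x i = x j → i = j) := by
    intro m
    have hc := hcard m
    refine ⟨fun j => if h : j < (S m).card then ((S m).equivFin.symm ⟨j, h⟩ : Fin n → ℂ) else 0,
      ?_, ?_⟩
    · intro j hj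
      have h : j < (S m).card := by omega
      simp only [dif_pos h]
      exact ((S m).equivFin.symm ⟨j, h⟩).2
    · intro i hi j hj hij
      have h1 : i < (S m).card := by omega
      have h2 : j < (S m).card := by omega
      simp only [dif_pos h1, dif_pos h2] at hij
      have := (S m).equivFin.symm.injective (Subtype.ext hij)
      simpa using this
  choose x hx hxinj using henum
  set y : ℕ → (Fin n → UC) := fun j k => toUC (fun m => x m j k) with hy
  apply Set.infinite_of_injective_forall_mem (f := y) _ _ hfin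
  · intro i j hij
    have h1 : ∀ k, ∀ᶠ m in (Filter.hyperfilter ℕ : Filter ℕ), x m i k = x m j k := by
      intro k
      exact toUC_eq_iff.mp (congrFun hij k)
    have h2 : ∀ᶠ m in (Filter.hyperfilter ℕ : Filter ℕ), ∀ k, x m i k = x m j k :=
      Filter.eventually_all.mpr h1
    have h3 := (h2.and (eventually_ge_hyper i)).and (eventually_ge_hyper j)
    obtain ⟨m, ⟨hm1, hm2⟩, hm3⟩ := h3.exists
    exact hxinj m i hm2 j hm3 (funext hm1)
  · intro j
    show ∀ i, eval (y j) (F i) = eval (y j) (G i)
    intro i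
    simp only [hy, hF, hG]
    rw [hevU, hevU, toUC_eq_iff]
    refine (eventually_ge_hyper j).mono (fun m hm => ?_)
    rw [hevm, hevm, hPm, hQm]
    exact hS m _ (hx m j hm) i

end Pool.Agent.UBC
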